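import Pool.Agent.H466.HD.SB

/-!
# HD-FIN: few zeros of the backward heat flow near the line
-/

set_option autoImplicit false

namespace Pool.Agent.H407.HD

open Complex MeasureTheory Set Filter Topology
open Pool.Agent.H466.HF Pool.Agent.H466.LD Pool.Agent.H466.HP Pool.Agent.H466.HN
open Pool.Agent.H466.HD

/-- the sum over the scales -/
theorem geo {q q0 : ℝ} (h0 : 0 < q0) (hq : q0 ≤ q) (J : ℕ) :
    ∑ j ∈ Finset.range J, (2 : ℝ) ^ j * Real.exp (-(2 ^ j * q)) ≤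
      16 / q0 ^ 2 * Real.exp (-(q / 2)) := by
  have h1 : ∀ j ∈ Finset.range J, (2 : ℝ) ^ j * Real.exp (-(2 ^ j * q)) ≤
      (8 / q0 ^ 2 * Real.exp (-(q / 2))) * (1 / 2) ^ j := by
    intro j _
    have h2 : (1 : ℝ) ≤ 2 ^ j := one_le_pow₀ (by norm_num)
    have h2p : (0 : ℝ) < 2 ^ j := by positivity
    have h3 : q / 2 + 2 ^ j * q0 / 2 ≤ 2 ^ j * q := by
      have h4 : 1 * q ≤ 2 ^ j * q := mul_le_mul_of_nonneg_right h2 (by linarith)
      have h5 : 2 ^ j * q0 ≤ 2 ^ j * q := mul_le_mul_of_nonneg_left hq h2p.le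
      linarith
    have h4 : Real.exp (-(2 ^ j * q)) ≤ Real.exp (-(q / 2)) * Real.exp (-(2 ^ j * q0 / 2)) := by
      rw [← Real.exp_add]
      exact Real.exp_le_exp.2 (by linarith)
    have h5 : Real.exp (-(2 ^ j * q0 / 2)) ≤ 8 / ((2 ^ j) ^ 2 * q0 ^ 2) := by
      have h7 : 0 < (2 : ℝ) ^ j * q0 / 2 := by positivity
      have h6 := Real.quadratic_le_exp_of_nonneg h7.le
      rw [Real.exp_neg, ← one_div, div_le_div_iff₀ (Real.exp_pos _) (by positivity)]
      nlinarith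
    calc (2 : ℝ) ^ j * Real.exp (-(2 ^ j * q))
        ≤ 2 ^ j * (Real.exp (-(q / 2)) * (8 / ((2 ^ j) ^ 2 * q0 ^ 2))) :=
          mul_le_mul_of_nonneg_left (h4.trans (mul_le_mul_of_nonneg_left h5
            (Real.exp_pos _).le)) h2p.le
      _ = (8 / q0 ^ 2 * Real.exp (-(q / 2))) * (1 / 2) ^ j := by
          rw [one_div, inv_pow]
          field_simp
  refine (Finset.sum_le_sum h1).trans ?_
  rw [← Finset.mul_sum]
  have h2 := sum_geometric_two_le J
  calc (8 / q0 ^ 2 * Real.exp (-(q / 2))) * ∑ i ∈ Finset.range J, (1 / 2 : ℝ) ^ i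
      ≤ (8 / q0 ^ 2 * Real.exp (-(q / 2))) * 2 := mul_le_mul_of_nonneg_left h2 (by positivity)
    _ = _ := by ring

/-- three levels -/
def lev {α : Type} (a b : α) (f : ℕ → α) : ℕ → α
  | 0 => a
  | 1 => b
  | (k + 2) => f k

theorem sum_lev (a b : ℝ) (f : ℕ → ℝ) (a' b' : ℝ) (f' : ℕ → ℝ) (K : ℕ) :
    ∑ j ∈ Finset.range (K + 2), lev a b f j * lev a' b' f' j =
      (∑ k ∈ Finset.range K, f k * f' k) + b * b' + a * a' := by
  rw [Finset.sum_range_succ', Finset.sum_range_succ']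
  rfl

theorem lev_nonneg {a b : ℝ} {f : ℕ → ℝ} (ha : 0 ≤ a) (hb : 0 ≤ b) (hf : ∀ k, 0 ≤ f k) (j : ℕ) :
    0 ≤ lev a b f j := by
  match j with
  | 0 => exact ha
  | 1 => exact hb
  | (k + 2) => exact hf k

theorem reg_mono {t y0 M κ κ' L : ℝ} (hL : 0 ≤ L) (hκ : κ ≤ κ') (h : Reg1 t y0 M κ L) :
    Reg1 t y0 M κ' L :=
  ⟨h.1, fun z hz => (h.2 z hz).trans (mul_le_mul_of_nonneg_right hκ hL)⟩

/-- the largest bad level -/
theorem largest (K : ℕ) (p : ℕ → Prop) (h : ∃ k < K, p k) :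
    ∃ k < K, p k ∧ (k + 1 = K ∨ ¬ p (k + 1)) := by
  classical
  obtain ⟨k0, hk0, hp0⟩ := h
  set s := (Finset.range K).filter p with hs
  have hne : s.Nonempty := ⟨k0, Finset.mem_filter.2 ⟨Finset.mem_range.2 hk0, hp0⟩⟩
  have hm := s.max'_mem hne
  obtain ⟨m1, m2⟩ := Finset.mem_filter.1 hm
  refine ⟨s.max' hne, Finset.mem_range.1 m1, m2, ?_⟩
  by_contra hcon
  rw [not_or, not_not] at hcon
  have h1 : s.max' hne + 1 ∈ s := Finset.mem_filter.2
    ⟨Finset.mem_range.2 (by have := Finset.mem_range.1 m1; omega), hcon.2⟩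
  have h2 := s.le_max' _ h1
  omega

theorem fin (h1 : S_HB) (h2 : S_ZC) (h3 : S_CNTN) (h4 : S_REGX) (h5 : S_REG) (h6 : S_INTQ) :
    S_FIN := by
  obtain ⟨κc, Cc, Ac, Tc, δc, hκc, hCc, hAc, hTc, hδc, hcnt⟩ := h3
  obtain ⟨Cz, hCz, hzc⟩ := h2
  obtain ⟨CX, cX, TX, hCX, hcX, hTX, hregx⟩ := h4 64 κc (by norm_num) hκc
  refine ⟨2 * Cz + Cc + 1, by positivity, ?_⟩
  intro ρ hρ hρ1
  obtain ⟨κz, δz, hκz, hδz, hz⟩ := hzc ρ hρ hρ1
  obtain ⟨κh, hκh, hhb⟩ := h1 ρ (ρ ^ 2) hρ (by linarith) (by positivity)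
  set κ : ℝ := min 1 (min κz κh) with hκ
  have hκp : 0 < κ := lt_min one_pos (lt_min hκz hκh)
  have hκ1 : κ ≤ 1 := min_le_left _ _
  have hκ2 : κ ≤ κz := (min_le_right _ _).trans (min_le_left _ _)
  have hκ3 : κ ≤ κh := (min_le_right _ _).trans (min_le_right _ _)
  obtain ⟨A1, Tr, hA1, hTr, hreg⟩ := h5 (1 / κ) κ (ρ ^ 2) (by
    rw [le_div_iff₀ hκp]; linarith) hκp (by positivity)
  obtain ⟨Az, Tz, hAz, hTz, hz⟩ := hz κ hκp hκ2 A1 hA1
  obtain ⟨Ah, δh, Th, hAh, hδh, hTh, hhb⟩ := hhb κ hκp hκ3 A1 hA1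
  -- the exponentially small tail
  set q0 : ℝ := cX / 64 with hq0
  have hq0p : 0 < q0 := by positivity
  set E : ℝ := Cc * CX / 32 * (16 / q0 ^ 2) with hE
  have hEp : 0 < E := by positivity
  obtain ⟨Ae, hAe⟩ : ∃ Ae : ℝ, ∀ A : ℝ, Ae ≤ A → E * Real.exp (-(cX * A / 64 / 2)) ≤ ρ ^ 2 := by
    refine ⟨128 / cX * Real.log (E / ρ ^ 2), fun A hA => ?_⟩
    have e1 : Real.log (E / ρ ^ 2) ≤ cX * A / 64 / 2 := by
      have e2 : cX / 128 * (128 / cX * Real.log (E / ρ ^ 2)) ≤ cX / 128 * A :=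
        mul_le_mul_of_nonneg_left hA (by positivity)
      have e3 : cX / 128 * (128 / cX * Real.log (E / ρ ^ 2)) = Real.log (E / ρ ^ 2) := by
        field_simp
      linarith
    have e4 : E / ρ ^ 2 ≤ Real.exp (cX * A / 64 / 2) := by
      rw [← Real.exp_log (show 0 < E / ρ ^ 2 by positivity)]
      exact Real.exp_le_exp.2 e1
    rw [Real.exp_neg, ← div_eq_mul_inv, div_le_iff₀ (Real.exp_pos _)]
    rw [div_le_iff₀ (by positivity)] at e4
    linarith
  refine ⟨max (max Ac Az) (max Ah Ae), min 1 (min δc (min δz δh)),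
    max (max (max Tc Tz) (max Th Tr)) (max TX (2 / ρ ^ 2)),
    hAc.trans ((le_max_left _ _).trans (le_max_left _ _)), by positivity,
    hTc.trans (((le_max_left _ _).trans (le_max_left _ _)).trans (le_max_left _ _)), ?_⟩
  intro T μ hT hμ hA hδ S hS
  have hTTc : Tc ≤ T := (((le_max_left _ _).trans (le_max_left _ _)).trans (le_max_left _ _)).trans hT
  have hTTz : Tz ≤ T := (((le_max_right _ _).trans (le_max_left _ _)).trans (le_max_left _ _)).trans hT
  have hTTh : Th ≤ T := (((le_max_left _ _).trans (le_max_right _ _)).trans (le_max_left _ _)).trans hT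
  have hTTr : Tr ≤ T := (((le_max_right _ _).trans (le_max_right _ _)).trans (le_max_left _ _)).trans hT
  have hTTX : TX ≤ T := ((le_max_left _ _).trans (le_max_right _ _)).trans hT
  have hTρ : 2 / ρ ^ 2 ≤ T := ((le_max_right _ _).trans (le_max_right _ _)).trans hT
  have hT10 : 10 ≤ T := hTc.trans hTTc
  have hTp : 0 < T := by linarith
  have hL : 0 < Real.log T := Real.log_pos (by linarith)
  set L := Real.log T with hLdef
  set A : ℝ := μ * L ^ 2 with hAdef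
  set Δ : ℝ := μ * L with hΔ
  have hAc' : Ac ≤ A := ((le_max_left _ _).trans (le_max_left _ _)).trans hA
  have hAz' : Az ≤ A := ((le_max_right _ _).trans (le_max_left _ _)).trans hA
  have hAh' : Ah ≤ A := ((le_max_left _ _).trans (le_max_right _ _)).trans hA
  have hAe' : Ae ≤ A := ((le_max_right _ _).trans (le_max_right _ _)).trans hA
  have hΔ1 : Δ ≤ 1 := hδ.trans (min_le_left _ _)
  have hΔc : Δ ≤ δc := (hδ.trans (min_le_right _ _)).trans (min_le_left _ _)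
  have hΔz : Δ ≤ δz := ((hδ.trans (min_le_right _ _)).trans (min_le_right _ _)).trans (min_le_left _ _)
  have hΔh : Δ ≤ δh := ((hδ.trans (min_le_right _ _)).trans (min_le_right _ _)).trans (min_le_right _ _)
  have hAp : 0 < A := by positivity
  have hΔp : 0 < Δ := by positivity
  have hΔL : Δ * L = A := by rw [hΔ, hAdef]; ring
  have hρ2T : 2 ≤ ρ ^ 2 * T := by
    rw [div_le_iff₀ (by positivity)] at hTρ
    linarith
  set m : ℂ → ℝ := fun z => (analyticOrderNatAt (LL gk (-μ)) z : ℝ) with hm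
  have hm0 : ∀ z, 0 ≤ m z := fun z => Nat.cast_nonneg _
  set h : ℝ := ρ * Δ with hh
  have hhp : 0 < h := by positivity
  have hhΔ : h ≤ Δ / 16 := by
    have : ρ * Δ ≤ 1 / 16 * Δ := mul_le_mul_of_nonneg_right hρ1 hΔp.le
    linarith
  -- the scales
  set y : ℕ → ℝ := fun k => 2 ^ k * Δ / 64 with hy
  have hyp : ∀ k, 0 < y k := fun k => by rw [hy]; positivity
  have hyge : ∀ k, Δ / 64 ≤ y k := by
    intro k
    have e1 : (1 : ℝ) ≤ 2 ^ k := one_le_pow₀ (by norm_num)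
    have e2 : 1 * Δ ≤ 2 ^ k * Δ := mul_le_mul_of_nonneg_right e1 hΔp.le
    simp only [hy]
    linarith
  obtain ⟨K0, hK0⟩ : ∃ K0 : ℕ, 2 ≤ y K0 := by
    obtain ⟨k, hk⟩ := pow_unbounded_of_one_lt (128 / Δ) (one_lt_two (α := ℝ))
    refine ⟨k, ?_⟩
    rw [div_lt_iff₀ hΔp] at hk
    simp only [hy]
    linarith
  have hK00 : K0 ≠ 0 := by
    intro h0
    rw [h0] at hK0
    simp only [hy, pow_zero] at hK0
    linarith
  obtain ⟨K, rfl⟩ : ∃ K, K0 = K + 1 := ⟨K0 - 1, by omega⟩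
  have hfil : ∀ t : ℝ, ∀ z ∈ S.filter (fun z : ℂ => |z.im - t| ≤ h),
      z ∈ S ∧ |z.im - t| ≤ h := fun t z hz' => Finset.mem_filter.1 hz'
  -- the local count at the scale `Y`
  have hN : ∀ t ∈ Icc (T / 2) (4 * T), ∀ Y : ℝ, Δ / 64 ≤ Y → Y ≤ 2 → Reg1 t Y 64 κc L →
      ∑ z ∈ S with |z.im - t| ≤ h, m z ≤ Cc * (Y * L) := by
    intro t ht Y hY1 hY2 hr
    exact hcnt T t Y μ hTTc ht.1 ht.2 (by linarith) hY2 hr hμ hAc' hΔc (by linarith)
      (S.filter fun z : ℂ => |z.im - t| ≤ h) (by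
        intro z hz'
        obtain ⟨g1, g2⟩ := hfil t z hz'
        obtain ⟨g3, g4, -, -⟩ := hS z g1
        exact ⟨g3, by linarith, by linarith⟩)
  have hN2 : ∀ t ∈ Icc (T / 2) (4 * T), ∀ k : ℕ, (2 ≤ y k ∨ Reg1 t (y k) 64 κc L) →
      ∑ z ∈ S with |z.im - t| ≤ h, m z ≤ Cc * (y k * L) := by
    intro t ht k hk
    rcases le_or_gt 2 (y k) with e | e
    · have e1 := hN t ht 2 (by linarith) le_rfl ((hregx T hTTX).2 2 le_rfl t ht)
      refine e1.trans ?_
      exact mul_le_mul_of_nonneg_left (mul_le_mul_of_nonneg_right e hL.le) hCc.le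
    · exact hN t ht (y k) (hyge k) e.le (hk.resolve_left (not_le.2 e))
  -- the bad sets
  set X : ℕ → Set ℝ := fun k => {t : ℝ | t ∈ Icc (T / 2) (4 * T) ∧ ¬ Reg1 t (y k) 64 κc L}
    with hX
  set B1 : Set ℝ := {t : ℝ | t ∈ Icc T (2 * T) ∧ ¬ (CF t (A1 / L) (1 / κ) ∧
      ∀ z ∈ Kt t (A1 / L) 4 (1 / κ), ‖P z - (L / 2 : ℝ)‖ ≤ κ * L)} with hB1
  set B2 : Set ℝ := {t : ℝ | t ∈ Icc T (2 * T) ∧ Rg T t A1 (1 / κ) κ ∧
      ∀ z : ℂ, ‖z - (t : ℂ) * I‖ ≤ ρ * Δ →
        ‖LL gk (-μ) z‖ < Gm T t μ * Real.exp (-(ρ ^ 2 * A))} with hB2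
  set B : Set ℝ := (Icc (T - h) T ∪ Icc (2 * T) (2 * T + h)) ∪ (B1 ∪ B2) with hB
  have hvB : volume B ≤ ENNReal.ofReal (2 * h + 2 * (ρ ^ 2 * T)) := by
    have e1 : volume (Icc (T - h) T) ≤ ENNReal.ofReal h := by
      rw [Real.volume_Icc]
      exact ENNReal.ofReal_le_ofReal (by linarith)
    have e2 : volume (Icc (2 * T) (2 * T + h)) ≤ ENNReal.ofReal h := by
      rw [Real.volume_Icc]
      exact ENNReal.ofReal_le_ofReal (by linarith)
    have e3 : volume B1 ≤ ENNReal.ofReal (ρ ^ 2 * T) := hreg T hTTr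
    have e4 : volume B2 ≤ ENNReal.ofReal (ρ ^ 2 * T) := hhb T μ hTTh hμ hAh' hΔh
    have e5 : ENNReal.ofReal (2 * h + 2 * (ρ ^ 2 * T)) = (ENNReal.ofReal h + ENNReal.ofReal h) +
        (ENNReal.ofReal (ρ ^ 2 * T) + ENNReal.ofReal (ρ ^ 2 * T)) := by
      rw [← ENNReal.ofReal_add hhp.le hhp.le, ← ENNReal.ofReal_add (by positivity) (by positivity),
        ← ENNReal.ofReal_add (by positivity) (by positivity)]
      congr 1
      ring
    rw [e5]
    refine (measure_union_le _ _).trans (add_le_add ?_ ?_)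
    · exact (measure_union_le _ _).trans (add_le_add e1 e2)
    · exact (measure_union_le _ _).trans (add_le_add e3 e4)
  have hicc : ∀ t ∈ Icc (T - h) (2 * T + h), t ∈ Icc (T / 2) (4 * T) := by
    intro t ht
    exact ⟨by linarith [ht.1], by linarith [ht.2]⟩
  -- the good points
  have hgood : ∀ t ∈ Icc (T - h) (2 * T + h), t ∉ B →
      ∑ z ∈ S with |z.im - t| ≤ h, m z ≤ Cz * ρ ^ 2 * A := by
    intro t ht hnB
    have g1 : T ≤ t := by
      by_contra hc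
      exact hnB (Or.inl (Or.inl ⟨ht.1, (not_le.1 hc).le⟩))
    have g2 : t ≤ 2 * T := by
      by_contra hc
      exact hnB (Or.inl (Or.inr ⟨(not_le.1 hc).le, ht.2⟩))
    have g3 : Rg T t A1 (1 / κ) κ := by
      by_contra hc
      exact hnB (Or.inr (Or.inl ⟨⟨g1, g2⟩, fun hcc => hc ⟨hcc.1, hcc.2⟩⟩))
    have g4 : ∃ z : ℂ, ‖z - (t : ℂ) * I‖ ≤ ρ * Δ ∧
        Gm T t μ * Real.exp (-(ρ ^ 2 * A)) ≤ ‖LL gk (-μ) z‖ := by
      by_contra hc
      push Not at hc
      exact hnB (Or.inr (Or.inr ⟨⟨g1, g2⟩, g3, hc⟩))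
    refine hz T t μ hTTz g1 g2 g3 hμ hAz' hΔz g4 (S.filter fun z : ℂ => |z.im - t| ≤ h) ?_
    intro z hz'
    obtain ⟨g5, g6⟩ := hfil t z hz'
    obtain ⟨g7, g8, -, -⟩ := hS z g5
    refine ⟨g7, ?_⟩
    have g9 := Complex.norm_le_abs_re_add_abs_im (z - (t : ℂ) * I)
    have g10 : (z - (t : ℂ) * I).re = z.re := by simp
    have g11 : (z - (t : ℂ) * I).im = z.im - t := by simp
    rw [g10, g11] at g9
    have g12 : 2 * ρ * Δ = ρ * Δ + ρ * Δ := by ring
    change ‖z - (t : ℂ) * I‖ ≤ 2 * ρ * Δ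
    rw [g12]
    linarith
  -- integration
  have hfin := h6 ℂ S m (fun z => z.im) (K + 1 + 2)
    (lev (Icc (T - h) (2 * T + h)) B X)
    (lev (Cz * ρ ^ 2 * A) (Cc * (y 0 * L)) (fun k => Cc * (y (k + 1) * L)))
    (lev (T + 2 * h) (2 * h + 2 * (ρ ^ 2 * T)) (fun k => CX * T * Real.exp (-(cX * y k * L))))
    (T - h) (2 * T + h) h (by linarith) hhp (by
      intro z hz'
      obtain ⟨-, -, g1, g2⟩ := hS z hz'
      exact ⟨hm0 z, by linarith, by linarith⟩) (by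
      intro j
      refine ⟨lev_nonneg (by positivity) (mul_nonneg hCc.le (mul_nonneg (hyp 0).le hL.le))
        (fun k => mul_nonneg hCc.le (mul_nonneg (hyp _).le hL.le)) j,
        lev_nonneg (by linarith) (by positivity) (fun k => by positivity) j⟩) (by
      intro j _
      match j with
      | 0 =>
        change volume (Icc (T - h) (2 * T + h)) ≤ ENNReal.ofReal (T + 2 * h)
        rw [Real.volume_Icc]
        exact ENNReal.ofReal_le_ofReal (by linarith)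
      | 1 => exact hvB
      | (k + 2) => exact (hregx T hTTX).1 (y k) (hyp k)) (by
      intro t ht hi
      exact absurd ht (hi 0 (Finset.mem_range.2 (by omega)))) (by
      intro t ht j0 _ _
      have ht' := hicc t ht
      by_cases hex : ∃ k < K + 1, t ∈ X k
      · obtain ⟨k, hk, hkX, hk'⟩ := largest (K + 1) (fun k => t ∈ X k) hex
        refine ⟨k + 2, Finset.mem_range.2 (by omega), hkX, ?_⟩
        refine hN2 t ht' (k + 1) ?_
        rcases hk' with e | e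
        · left
          rw [e]
          exact hK0
        · right
          by_contra hc
          exact e ⟨ht', hc⟩
      · have hr : Reg1 t (y 0) 64 κc L := by
          by_contra hc
          exact hex ⟨0, by omega, ht', hc⟩
        by_cases hBt : t ∈ B
        · exact ⟨1, Finset.mem_range.2 (by omega), hBt, hN2 t ht' 0 (Or.inr hr)⟩
        · exact ⟨0, Finset.mem_range.2 (by omega), ht, hgood t ht hBt⟩)
  rw [sum_lev] at hfin
  -- the sum over the scales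
  have hgeo := geo (q := cX * A / 64) hq0p (by
    rw [hq0]
    have e1 : cX * 1 ≤ cX * A := mul_le_mul_of_nonneg_left (hAc.trans hAc') hcX.le
    linarith) (K + 1)
  have hsum : ∑ k ∈ Finset.range (K + 1),
      Cc * (y (k + 1) * L) * (CX * T * Real.exp (-(cX * y k * L))) =
      T * A * ((Cc * CX / 32) *
        ∑ k ∈ Finset.range (K + 1), (2 : ℝ) ^ k * Real.exp (-(2 ^ k * (cX * A / 64)))) := by
    rw [Finset.mul_sum, Finset.mul_sum]
    refine Finset.sum_congr rfl fun k _ => ?_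
    have e1 : cX * y k * L = 2 ^ k * (cX * A / 64) := by
      simp only [hy]
      rw [← hΔL]
      ring
    have e2 : y (k + 1) * L = 2 ^ k * A / 32 := by
      simp only [hy, pow_succ]
      rw [← hΔL]
      ring
    rw [e1, e2]
    ring
  have htail : ∑ k ∈ Finset.range (K + 1),
      Cc * (y (k + 1) * L) * (CX * T * Real.exp (-(cX * y k * L))) ≤ T * A * ρ ^ 2 := by
    rw [hsum]
    refine mul_le_mul_of_nonneg_left ?_ (by positivity)
    calc (Cc * CX / 32) *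
        ∑ k ∈ Finset.range (K + 1), (2 : ℝ) ^ k * Real.exp (-(2 ^ k * (cX * A / 64)))
        ≤ (Cc * CX / 32) * (16 / q0 ^ 2 * Real.exp (-(cX * A / 64 / 2))) :=
          mul_le_mul_of_nonneg_left hgeo (by positivity)
      _ = E * Real.exp (-(cX * A / 64 / 2)) := by rw [hE]; ring
      _ ≤ ρ ^ 2 := hAe A hAe'
  have hy0 : y 0 * L = A / 64 := by
    simp only [hy, pow_zero]
    rw [← hΔL]
    ring
  have hh1 : 2 * h ≤ ρ ^ 2 * T := by linarith
  have hlev1 : Cc * (y 0 * L) * (2 * h + 2 * (ρ ^ 2 * T)) ≤ T * A * ρ ^ 2 * Cc := by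
    rw [hy0]
    have e1 : 2 * h + 2 * (ρ ^ 2 * T) ≤ 3 * (ρ ^ 2 * T) := by linarith
    have e2 : Cc * (A / 64) * (2 * h + 2 * (ρ ^ 2 * T)) ≤ Cc * (A / 64) * (3 * (ρ ^ 2 * T)) :=
      mul_le_mul_of_nonneg_left e1 (by positivity)
    have e3 : 0 ≤ T * A * ρ ^ 2 * Cc := by positivity
    have e4 : Cc * (A / 64) * (3 * (ρ ^ 2 * T)) = 3 / 64 * (T * A * ρ ^ 2 * Cc) := by ring
    linarith
  have hlev0 : Cz * ρ ^ 2 * A * (T + 2 * h) ≤ T * A * ρ ^ 2 * (2 * Cz) := by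
    have e1 : T + 2 * h ≤ 2 * T := by linarith
    have e2 : Cz * ρ ^ 2 * A * (T + 2 * h) ≤ Cz * ρ ^ 2 * A * (2 * T) :=
      mul_le_mul_of_nonneg_left e1 (by positivity)
    linarith
  have htot : 2 * h * ∑ z ∈ S, m z ≤ T * A * ρ ^ 2 * (2 * Cz + Cc + 1) := by
    have e1 : T * A * ρ ^ 2 * (2 * Cz + Cc + 1) = T * A * ρ ^ 2 + T * A * ρ ^ 2 * Cc +
      T * A * ρ ^ 2 * (2 * Cz) := by ring
    linarith
  have e1 : T * A * ρ ^ 2 * (2 * Cz + Cc + 1) = h * ((2 * Cz + Cc + 1) * ρ * (T * L)) := by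
    rw [hh, ← hΔL]
    ring
  have e2 : h * ∑ z ∈ S, m z ≤ h * ((2 * Cz + Cc + 1) * ρ * (T * L)) := by
    have e3 : 0 ≤ ∑ z ∈ S, m z := Finset.sum_nonneg fun z _ => hm0 z
    have e4 : 0 ≤ h * ∑ z ∈ S, m z := by positivity
    rw [← e1]
    linarith
  exact le_of_mul_le_mul_left e2 hhp

end Pool.Agent.H407.HD
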